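import Pool.Agent.Helper29.ZR.Props
import Pool.Agent.Helper10.RC.Homs

/-!
# MP_b55b7c_an, packet ZR-TF: small full matrices over the fixed point algebra
-/

open scoped ENNReal NNReal InnerProductSpace ComplexOrder
open Filter Topology

attribute [-instance] CStarMatrix.instAlgebra CStarMatrix.instModule CStarMatrix.instSMul
  CStarMatrix.instMulAction CStarMatrix.instDistribMulAction

set_option linter.unusedSectionVars false

noncomputable section
namespace RC
universe u
namespace H79TF

section dims
variable {A : Type u} [CStarAlgebra A] [PartialOrder A] [StarOrderedRing A]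
variable {ι κ : Type} [Fintype ι] [DecidableEq ι] [Fintype κ] [DecidableEq κ]

theorem dim_zero (σ : QTrace A) : σ.dim (0 : CStarMatrix ι ι A) = 0 := by
  unfold QTrace.dim
  have h : ∀ n : ℕ, σ.τ ι (cfc (fun t : ℝ => min 1 ((n : ℝ) * t)) (0 : CStarMatrix ι ι A)) = 0 := by
    intro n
    have h1 : cfc (fun t : ℝ => min 1 ((n : ℝ) * t)) (0 : CStarMatrix ι ι A) = 0 := by
      rw [cfc_apply_zero]
      simp
    rw [h1]
    exact σ.zero
  simp_rw [h]
  exact ciSup_const

theorem dim_add_le (hAdd : CuAddP.{u}) (hMono : QMonoP.{u}) (hQD : QDsumP.{u}) (σ : QTrace A)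
    {x y : CStarMatrix ι ι A} (hx : 0 ≤ x) (hy : 0 ≤ y) :
    σ.dim (x + y) ≤ σ.dim x + σ.dim y := by
  have h := hAdd A ι x y 0 0 le_rfl le_rfl hx hy
  rw [add_zero, cut_zero (add_nonneg hx hy), cut_zero hx, cut_zero hy] at h
  obtain ⟨h0, h1⟩ := hQD A σ ι ι x y hx hy
  calc σ.dim (x + y) ≤ σ.dim (dsum x y) := hMono A σ ι (ι ⊕ ι) _ _ (add_nonneg hx hy) h0 h
    _ = _ := h1

theorem dim_sum_le (hAdd : CuAddP.{u}) (hMono : QMonoP.{u}) (hQD : QDsumP.{u}) (σ : QTrace A)
    {G : Type} (T : G → CStarMatrix ι ι A) (hT : ∀ g, 0 ≤ T g) (s : ℝ)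
    (hs : ∀ g, σ.dim (T g) ≤ s) (S : Finset G) : σ.dim (∑ g ∈ S, T g) ≤ S.card * s := by
  classical
  induction S using Finset.induction_on with
  | empty => simp [dim_zero]
  | insert g S hg ih =>
    rw [Finset.sum_insert hg, Finset.card_insert_of_notMem hg]
    have h := dim_add_le hAdd hMono hQD σ (hT g) (Finset.sum_nonneg fun g _ => hT g)
      (y := ∑ g ∈ S, T g)
    push_cast
    linarith [hs g]

/-- `v* c v` is Cuntz below `c`. -/
theorem cu_conj (v : CStarMatrix κ ι A) (c : CStarMatrix κ κ A) :
    Cu (v.conjTranspose * c * v) c := fun ε hε =>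
  ⟨v.conjTranspose, by rw [cm_conj_conj, sub_self, norm_zero]; exact hε⟩

/-- `z* z` is Cuntz below `z z*`. -/
theorem cu_swap (hSw : CuSwapP.{u}) (z : CStarMatrix κ ι A) :
    Cu (z.conjTranspose * z) (z * z.conjTranspose) := by
  have h := hSw A ι κ z.conjTranspose 0 le_rfl
  rw [cm_conj_conj, cut_zero (cm_conj_mul_nonneg z), cut_zero (cm_mul_conj_nonneg z)] at h
  exact h

end dims

section expect
variable {A : Type u} [CStarAlgebra A] {G : Type} [Group G] [Fintype G]
variable (α : G → A ≃⋆ₐ[ℂ] A)

/-- The conditional expectation onto the fixed point algebra. -/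
def E (a : A) : A := (Fintype.card G : ℂ)⁻¹ • ∑ g, α g a

theorem cardC : (Fintype.card G : ℂ) ≠ 0 := by
  exact_mod_cast Fintype.card_ne_zero

theorem E_sum {ι : Type} (s : Finset ι) (f : ι → A) : E α (∑ i ∈ s, f i) = ∑ i ∈ s, E α (f i) := by
  unfold E
  rw [← Finset.smul_sum, Finset.sum_comm]
  congr 1
  refine Finset.sum_congr rfl fun g _ => ?_
  rw [map_sum]

theorem E_star (a : A) : star (E α a) = E α (star a) := by
  unfold E
  rw [star_smul, star_sum]
  congr 1
  · simp
  · exact Finset.sum_congr rfl fun g _ => (map_star (α g) a).symm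

theorem E_one : E α 1 = 1 := by
  unfold E
  have : ∑ g : G, α g 1 = (Fintype.card G : ℂ) • (1 : A) := by
    rw [Finset.sum_congr rfl fun g _ => map_one (α g), Finset.sum_const, Finset.card_univ,
      ← Nat.cast_smul_eq_nsmul ℂ]
  rw [this, smul_smul, inv_mul_cancel₀ cardC, one_smul]

theorem E_fix (hα : IsAct α) (a : A) (h : G) : α h (E α a) = E α a := by
  unfold E
  rw [map_smul, map_sum]
  congr 1
  exact Fintype.sum_equiv (Equiv.mulLeft h) _ _ fun g => (hα h g a).symm

theorem E_mul_left {b : A} (hb : ∀ g, α g b = b) (a : A) : b * E α a = E α (b * a) := by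
  unfold E
  rw [mul_smul_comm, Finset.mul_sum]
  congr 1
  refine Finset.sum_congr rfl fun g _ => ?_
  rw [map_mul, hb]

theorem E_mul_right {b : A} (hb : ∀ g, α g b = b) (a : A) : E α a * b = E α (a * b) := by
  unfold E
  rw [smul_mul_assoc, Finset.sum_mul]
  congr 1
  refine Finset.sum_congr rfl fun g _ => ?_
  rw [map_mul, hb]

variable {m : ℕ} (c : Fin m → A) (z : G → A)

/-- `∑ E(x c_k) c_k* = x`. -/
theorem quasi (hz : ∀ g, z g = (Fintype.card G : ℂ)⁻¹ • ∑ i, c i * α g (star (c i)))
    (hzx : ∀ (x : A) (g : G), x * z g = z g * α g x) (hz1 : ∑ g, z g = 1) (x : A) :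
    ∑ k, E α (x * c k) * star (c k) = x := by
  have h1 : ∀ k, E α (x * c k) * star (c k) =
      ∑ g, α g x * ((Fintype.card G : ℂ)⁻¹ • (α g (c k) * star (c k))) := by
    intro k
    unfold E
    rw [smul_mul_assoc, Finset.sum_mul, Finset.smul_sum]
    refine Finset.sum_congr rfl fun g _ => ?_
    rw [map_mul, mul_smul_comm, mul_assoc]
  have h2 : ∀ g, star (z g) = ∑ k, (Fintype.card G : ℂ)⁻¹ • (α g (c k) * star (c k)) := by
    intro g
    rw [hz, star_smul, star_sum, ← Finset.smul_sum]
    congr 1
    · simp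
    · refine Finset.sum_congr rfl fun k _ => ?_
      rw [star_mul, ← map_star, star_star]
  have h3 : ∀ g, α g x * star (z g) = star (z g) * x := by
    intro g
    have h := congrArg star (hzx (star x) g)
    rw [star_mul, star_star, star_mul, ← map_star, star_star] at h
    exact h.symm
  calc ∑ k, E α (x * c k) * star (c k)
      = ∑ k, ∑ g, α g x * ((Fintype.card G : ℂ)⁻¹ • (α g (c k) * star (c k))) :=
        Finset.sum_congr rfl fun k _ => h1 k
    _ = ∑ g, α g x * star (z g) := by
        rw [Finset.sum_comm]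
        refine Finset.sum_congr rfl fun g _ => ?_
        rw [h2, Finset.mul_sum]
    _ = ∑ g, star (z g) * x := Finset.sum_congr rfl fun g _ => h3 g
    _ = x := by rw [← Finset.sum_mul, ← star_sum, hz1, star_one, one_mul]

/-- `∑ c_k E(c_k* x) = x`. -/
theorem quasi' (hz : ∀ g, z g = (Fintype.card G : ℂ)⁻¹ • ∑ i, c i * α g (star (c i)))
    (hzx : ∀ (x : A) (g : G), x * z g = z g * α g x) (hz1 : ∑ g, z g = 1) (x : A) :
    ∑ k, c k * E α (star (c k) * x) = x := by
  have h := congrArg star (quasi α c z hz hzx hz1 (star x))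
  rw [star_star, star_sum] at h
  refine Eq.trans (Finset.sum_congr rfl fun k _ => ?_) h
  rw [star_mul, star_star, E_star, star_mul, star_star]

/-- The key identity. -/
theorem key (hα : IsAct α)
    (hz : ∀ g, z g = (Fintype.card G : ℂ)⁻¹ • ∑ i, c i * α g (star (c i)))
    (hzx : ∀ (x : A) (g : G), x * z g = z g * α g x) (hz1 : ∑ g, z g = 1) (f x y : A) :
    ∑ l, (∑ k, E α (x * c k) * E α (star (c k) * f * c l)) * E α (star (c l) * y) =
      E α (x * f * y) := by
  have h1 : ∀ l, ∑ k, E α (x * c k) * E α (star (c k) * f * c l) = E α (x * f * c l) := by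
    intro l
    have : ∀ k, E α (x * c k) * E α (star (c k) * f * c l) =
        E α (E α (x * c k) * star (c k) * (f * c l)) := by
      intro k
      rw [E_mul_left α (E_fix α hα _)]
      simp only [mul_assoc]
    rw [Finset.sum_congr rfl fun k _ => this k, ← E_sum, ← Finset.sum_mul,
      quasi α c z hz hzx hz1 x, mul_assoc]
  have h2 : ∀ l, E α (x * f * c l) * E α (star (c l) * y) =
      E α (x * f * (c l * E α (star (c l) * y))) := by
    intro l
    rw [E_mul_right α (E_fix α hα _), mul_assoc]
  calc _ = ∑ l, E α (x * f * (c l * E α (star (c l) * y))) :=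
        Finset.sum_congr rfl fun l _ => by rw [h1, h2]
    _ = E α (x * f * y) := by
        rw [← E_sum, ← Finset.mul_sum, quasi' α c z hz hzx hz1 y]

end expect

/-- Small full matrices over the fixed point algebra. -/
theorem tfP (hSL : SL2P.{u}) (hSm : SmallEP.{u}) (hDim : DimP.{u}) (hMp : MpP.{u})
    (hAdd : CuAddP.{u}) (hMono : QMonoP.{u}) (hQD : QDsumP.{u}) (hQB : QBasicP.{u})
    (hOne : QOneP.{u}) (hSw : CuSwapP.{u}) : TFP.{u} := by
  intro A B _ _ _ _ _ _ G _ _ α j hα hj hS hN hne θ hθ
  obtain ⟨m, c, z, hz, hzx, hz1⟩ := hSL A G α hα hS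
  have hcard : (0 : ℝ) < Fintype.card G := by exact_mod_cast Fintype.card_pos
  obtain ⟨e, J, r, he, hαe, hsum, hrk⟩ :=
    hSm A G α hα hS hN hne (θ / Fintype.card G) (div_pos hθ hcard)
  have hes : star e = e := he.isSelfAdjoint.star_eq
  have hfix : ∀ a : A, ∃ b : B, j b = E α a := fun a => (hj.2 _).1 fun g => E_fix α hα a g
  choose Eb hEb using hfix
  set cB : CStarMatrix (Fin m) (Fin m) B :=
    CStarMatrix.ofMatrix fun k l => Eb (star (c k) * (e * e) * c l) with hcB
  have hmp : ∀ k l, (mp j cB) k l = E α (star (c k) * (e * e) * c l) := fun k l => hEb _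
  -- the decomposition
  set s : ℝ := Real.sqrt ((Fintype.card G : ℝ)⁻¹) with hs
  have hss : s * s = (Fintype.card G : ℝ)⁻¹ := Real.mul_self_sqrt (by positivity)
  set V : G → CStarMatrix Unit (Fin m) A :=
    fun g => CStarMatrix.ofMatrix fun _ l => e * ((s : ℂ) • α g (c l)) with hV
  have hVe : ∀ g (l : Fin m), (V g) () l = e * ((s : ℂ) • α g (c l)) := fun _ _ => rfl
  have hdec : mp j cB = ∑ g, (V g).conjTranspose * V g := by
    ext k l
    rw [hmp]
    have hsumap : (∑ g, (V g).conjTranspose * V g) k l =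
        ∑ g, ((V g).conjTranspose * V g) k l := Matrix.sum_apply _ _ _ _
    rw [hsumap]
    unfold E
    rw [Finset.smul_sum]
    refine Finset.sum_congr rfl fun g _ => ?_
    rw [CStarMatrix.mul_apply]
    simp only [Finset.univ_unique, Finset.sum_singleton]
    show _ = star ((V g) () k) * (V g) () l
    rw [hVe, hVe, map_mul, map_mul, map_mul, hαe, star_mul, hes, star_smul, map_star]
    simp only [smul_mul_assoc, mul_smul_comm, smul_smul]
    have h1 : (s : ℂ) * star (s : ℂ) = (Fintype.card G : ℂ)⁻¹ := by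
      rw [Complex.star_def, Complex.conj_ofReal, ← Complex.ofReal_mul, hss]
      push_cast
      rfl
    rw [h1]
    simp only [mul_assoc]
  have hpos : 0 ≤ mp j cB := by
    rw [hdec]
    exact Finset.sum_nonneg fun g _ => cm_conj_mul_nonneg _
  have hcB0 : 0 ≤ cB := (hMp A B j hj.1 (Fin m) (Fin m) cB cB).1.2 hpos
  refine ⟨m, cB, J + 1, hcB0, by positivity, ?_, ?_⟩
  · -- full
    intro ω
    set β : Fin J → CStarMatrix (Fin m) Unit B :=
      fun i => CStarMatrix.ofMatrix fun k _ => Eb (star (c k) * star (r i)) with hβ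
    have hsumβ : (1 : CStarMatrix Unit Unit B) = ∑ i, (β i).conjTranspose * cB * β i := by
      ext a b
      have hsumap : (∑ i, (β i).conjTranspose * cB * β i) a b =
          ∑ i, ((β i).conjTranspose * cB * β i) a b := Matrix.sum_apply _ _ _ _
      rw [hsumap]
      apply hj.1
      rw [map_sum]
      have hent : ∀ i, j (((β i).conjTranspose * cB * β i) a b) =
          E α (r i * (e * e) * star (r i)) := by
        intro i
        rw [← key α c z hα hz hzx hz1 (e * e) (r i) (star (r i)), CStarMatrix.mul_apply, map_sum]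
        refine Finset.sum_congr rfl fun l _ => ?_
        rw [map_mul, CStarMatrix.mul_apply, map_sum]
        have h1 : j ((β i) l b) = E α (star (c l) * star (r i)) := hEb _
        rw [h1]
        congr 1
        refine Finset.sum_congr rfl fun k _ => ?_
        rw [map_mul]
        have h2 : j ((β i).conjTranspose a k) = E α (r i * c k) := by
          show j (star ((β i) k a)) = _
          rw [map_star]
          have : j ((β i) k a) = E α (star (c k) * star (r i)) := hEb _
          rw [this, E_star, star_mul, star_star, star_star]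
        rw [h2]
        congr 1
        exact hEb _
      rw [Finset.sum_congr rfl fun i _ => hent i, ← E_sum, hsum, E_one]
      have : (1 : CStarMatrix Unit Unit B) a b = 1 := by
        rw [CStarMatrix.one_apply, if_pos rfl]
      rw [this, map_one]
    have h0 : 0 ≤ ω.dim cB := (hQB B ω (Fin m) cB hcB0).2.1
    have h1 : ω.dim (1 : CStarMatrix Unit Unit B) = 1 := by
      rw [(hOne B ω Unit).2]
      simp
    have h2 : ∀ i, ω.dim ((β i).conjTranspose * cB * β i) ≤ ω.dim cB := fun i =>
      hMono B ω Unit (Fin m) _ _ (cm_conj_nonneg' _ hcB0) hcB0 (cu_conj _ _)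
    have h3 := dim_sum_le hAdd hMono hQD ω (fun i => (β i).conjTranspose * cB * β i)
      (fun i => cm_conj_nonneg' _ hcB0) _ h2 Finset.univ
    rw [← hsumβ, h1, Finset.card_univ, Fintype.card_fin] at h3
    linarith
  · -- small
    intro σ
    rw [hdec]
    have h1 : ∀ g, σ.dim ((V g).conjTranspose * V g) ≤ θ / Fintype.card G := by
      intro g
      have h2 : σ.dim ((V g).conjTranspose * V g) ≤ σ.dim (V g * (V g).conjTranspose) :=
        hMono A σ (Fin m) Unit _ _ (cm_conj_mul_nonneg _) (cm_mul_conj_nonneg _)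
          (cu_swap hSw _)
      set P : A := ∑ l, ((s : ℂ) • α g (c l)) * star ((s : ℂ) • α g (c l)) with hP
      have hP0 : 0 ≤ P := Finset.sum_nonneg fun l _ => mul_star_self_nonneg _
      have h3 : V g * (V g).conjTranspose = one1 (sq (CFC.sqrt P * e * 1)) := by
        ext a b
        rw [CStarMatrix.mul_apply]
        show ∑ l, (V g) a l * star ((V g) b l) = sq (CFC.sqrt P * e * 1)
        have h4 : ∀ l, (V g) a l * star ((V g) b l) =
            e * (((s : ℂ) • α g (c l)) * star ((s : ℂ) • α g (c l))) * e := by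
          intro l
          show (V g) () l * star ((V g) () l) = _
          rw [hVe, star_mul, hes]
          simp only [mul_assoc]
        rw [Finset.sum_congr rfl fun l _ => h4 l, ← Finset.sum_mul, ← Finset.mul_sum, ← hP]
        have h5 : star (CFC.sqrt P) = CFC.sqrt P := (CFC.sqrt_nonneg P).isSelfAdjoint.star_eq
        have h6 : CFC.sqrt P * CFC.sqrt P = P := CFC.sqrt_mul_sqrt_self P hP0
        unfold sq
        rw [mul_one, star_mul, hes, h5]
        calc e * P * e = e * (CFC.sqrt P * CFC.sqrt P) * e := by rw [h6]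
          _ = _ := by simp only [mul_assoc]
      refine h2.trans ?_
      rw [h3]
      exact ((hDim A σ).2.2.1 e (CFC.sqrt P) 1 he).trans (hrk σ)
    have h2 := dim_sum_le hAdd hMono hQD σ (fun g => (V g).conjTranspose * V g)
      (fun g => cm_conj_mul_nonneg _) _ h1 Finset.univ
    refine h2.trans (le_of_eq ?_)
    rw [Finset.card_univ]
    field_simp

end H79TF
end RC
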